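import Mathlib
import Pool.Agent.X297.LO.Stm

/-! Part LIFT of project LO (MP_218893_pr). -/

namespace Pool.Agent.X153.LO

open Pool.Agent.X297.LO

theorem cnt_eq {m0 L : ℕ} (N : ℕ) (s : Fin m0 → ℤ) (c k : ℤ) :
    cnt (fun w : Fin m0 × Fin L => s w.1 + (N : ℤ) * ((w.2 : ℕ) : ℤ)) 1 (-1) c k
      = ∑ t : Fin m0 × Fin m0 × Fin m0, Nat.card {z : Fin L × Fin L × Fin L //
        (s t.1 - s t.2.1 + c * s t.2.2) + (N : ℤ) *
          (((z.1 : ℕ) : ℤ) - ((z.2.1 : ℕ) : ℤ) + c * ((z.2.2 : ℕ) : ℤ)) = k} := by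
  unfold cnt
  rw [← Nat.card_sigma]
  apply Nat.card_congr
  refine
    { toFun := fun P => ⟨(P.1.1.1, P.1.2.1.1, P.1.2.2.1),
        ⟨(P.1.1.2, P.1.2.1.2, P.1.2.2.2), ?_⟩⟩
      invFun := fun q => ⟨((q.1.1, q.2.1.1), (q.1.2.1, q.2.1.2.1), (q.1.2.2, q.2.1.2.2)), ?_⟩
      left_inv := ?_
      right_inv := ?_ }
  · have h := P.2
    simp only [smul_eq_mul] at h
    simp only
    linarith [h]
  · have h := q.2.2
    simp only [smul_eq_mul]
    linarith [h]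
  · intro P; rfl
  · intro q; rfl

theorem natcard_zero {α : Type} [Finite α] {p : α → Prop} (h : ∀ a, ¬ p a) :
    Nat.card {a // p a} = 0 := by
  have : IsEmpty {a // p a} := ⟨fun a => h a.1 a.2⟩
  exact Nat.card_of_isEmpty

theorem t_LIFT : S_LIFT := by
  classical
  intro hup hlo N A M hN hAM hgood
  obtain ⟨m0, s, hM, x, hA⟩ := hgood
  have hA1 : 1 ≤ A := by omega
  -- `Fin m0` is nonempty
  have hm0 : Nonempty (Fin m0) := by
    by_contra hne
    rw [not_nonempty_iff] at hne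
    have : Nat.card {p : Fin m0 × Fin m0 × Fin m0 //
        (N : ℤ) ∣ s p.1 - s p.2.1 + 2 * s p.2.2 - x} = 0 := by
      apply natcard_zero
      intro p
      exact (hne.false p.1).elim
    omega
  set E : ℕ := ∑ t : Fin m0 × Fin m0 × Fin m0, (s t.1 - s t.2.1 + 2 * s t.2.2 - x).natAbs with hE
  set m : ℕ := 4 * A * (E + 2) + 1 with hm
  have hmpos : 0 < 2 * m := by omega
  refine ⟨Fin m0 × Fin (2 * m), inferInstance, ⟨(hm0.some, ⟨0, hmpos⟩)⟩,
    fun w => s w.1 + (N : ℤ) * ((w.2 : ℕ) : ℤ), x + (N : ℤ) * (2 * m), ?_⟩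
  intro k
  rw [cnt_eq, cnt_eq]
  have hN' : (N : ℤ) ≠ 0 := by exact_mod_cast hN.ne'
  -- upper bound
  have h1 : ∑ t : Fin m0 × Fin m0 × Fin m0, Nat.card {z : Fin (2 * m) × Fin (2 * m) × Fin (2 * m) //
        (s t.1 - s t.2.1 + 1 * s t.2.2) + (N : ℤ) *
          (((z.1 : ℕ) : ℤ) - ((z.2.1 : ℕ) : ℤ) + 1 * ((z.2.2 : ℕ) : ℤ)) = k} ≤ M * (3 * m ^ 2) := by
    have h2 : ∀ t : Fin m0 × Fin m0 × Fin m0,
        Nat.card {z : Fin (2 * m) × Fin (2 * m) × Fin (2 * m) //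
        (s t.1 - s t.2.1 + 1 * s t.2.2) + (N : ℤ) *
          (((z.1 : ℕ) : ℤ) - ((z.2.1 : ℕ) : ℤ) + 1 * ((z.2.2 : ℕ) : ℤ)) = k}
        ≤ if (N : ℤ) ∣ s t.1 - s t.2.1 + s t.2.2 - k then 3 * m ^ 2 else 0 := by
      intro t
      split_ifs with hd
      · obtain ⟨j, hj⟩ := hd
        refine le_trans (le_of_eq ?_) (hup m (-j))
        apply Nat.card_congr
        apply Equiv.subtypeEquivRight
        intro z
        constructor
        · intro h
          have h3 : (N : ℤ) * (((z.1 : ℕ) : ℤ) - ((z.2.1 : ℕ) : ℤ) + ((z.2.2 : ℕ) : ℤ))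
              = (N : ℤ) * (-j) := by linarith
          exact mul_left_cancel₀ hN' h3
        · intro h
          have h3 : (N : ℤ) * (((z.1 : ℕ) : ℤ) - ((z.2.1 : ℕ) : ℤ) + ((z.2.2 : ℕ) : ℤ))
              = (N : ℤ) * (-j) := by rw [h]
          linarith
      · apply le_of_eq
        apply natcard_zero
        intro z hz
        apply hd
        refine ⟨-(((z.1 : ℕ) : ℤ) - ((z.2.1 : ℕ) : ℤ) + ((z.2.2 : ℕ) : ℤ)), ?_⟩
        linarith
    refine le_trans (Finset.sum_le_sum fun t _ => h2 t) ?_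
    rw [← Finset.sum_filter, Finset.sum_const, smul_eq_mul]
    apply Nat.mul_le_mul_right
    have h3 := hM k
    rw [Nat.card_eq_fintype_card, Fintype.card_subtype] at h3
    exact h3
  -- lower bound
  have h4 : (A : ℤ) * (2 * (m : ℤ) ^ 2 - 4 * m * (E + 2)) ≤
      ∑ t : Fin m0 × Fin m0 × Fin m0,
        ((Nat.card {z : Fin (2 * m) × Fin (2 * m) × Fin (2 * m) //
        (s t.1 - s t.2.1 + 2 * s t.2.2) + (N : ℤ) *
          (((z.1 : ℕ) : ℤ) - ((z.2.1 : ℕ) : ℤ) + 2 * ((z.2.2 : ℕ) : ℤ)) = x + (N : ℤ) * (2 * m)} : ℕ) : ℤ) := by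
    have h5 : ∀ t : Fin m0 × Fin m0 × Fin m0,
        (if (N : ℤ) ∣ s t.1 - s t.2.1 + 2 * s t.2.2 - x then
          (2 * (m : ℤ) ^ 2 - 4 * m * (E + 2)) else 0) ≤
        ((Nat.card {z : Fin (2 * m) × Fin (2 * m) × Fin (2 * m) //
        (s t.1 - s t.2.1 + 2 * s t.2.2) + (N : ℤ) *
          (((z.1 : ℕ) : ℤ) - ((z.2.1 : ℕ) : ℤ) + 2 * ((z.2.2 : ℕ) : ℤ)) = x + (N : ℤ) * (2 * m)} : ℕ) : ℤ) := by
      intro t
      split_ifs with hd
      · obtain ⟨j, hj⟩ := hd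
        have hjE : |(-j)| ≤ (E : ℤ) := by
          rw [abs_neg]
          have h6 : (s t.1 - s t.2.1 + 2 * s t.2.2 - x).natAbs ≤ E :=
            Finset.single_le_sum (f := fun t : Fin m0 × Fin m0 × Fin m0 =>
              (s t.1 - s t.2.1 + 2 * s t.2.2 - x).natAbs) (fun _ _ => Nat.zero_le _)
              (Finset.mem_univ t)
          have h7 : |(N : ℤ) * j| ≤ E := by
            rw [← hj, Int.abs_eq_natAbs]
            exact_mod_cast h6
          rw [abs_mul] at h7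
          have h8 : (1 : ℤ) ≤ |(N : ℤ)| := Int.one_le_abs hN'
          have h9 : 0 ≤ |j| := abs_nonneg j
          nlinarith
        refine le_trans (hlo m E (-j) hjE) (le_of_eq ?_)
        congr 1
        apply Nat.card_congr
        apply Equiv.subtypeEquivRight
        intro z
        constructor
        · intro h
          have h3 : (N : ℤ) * (((z.1 : ℕ) : ℤ) - ((z.2.1 : ℕ) : ℤ) + 2 * ((z.2.2 : ℕ) : ℤ))
              = (N : ℤ) * (2 * m + -j) := by rw [h]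
          linarith
        · intro h
          have h3 : (N : ℤ) * (((z.1 : ℕ) : ℤ) - ((z.2.1 : ℕ) : ℤ) + 2 * ((z.2.2 : ℕ) : ℤ))
              = (N : ℤ) * (2 * m + -j) := by linarith
          exact mul_left_cancel₀ hN' h3
      · exact Int.natCast_nonneg _
    refine le_trans ?_ (Finset.sum_le_sum fun t _ => h5 t)
    rw [← Finset.sum_filter, Finset.sum_const, nsmul_eq_mul]
    have h6 : A ≤ (Finset.univ.filter fun t : Fin m0 × Fin m0 × Fin m0 =>
        (N : ℤ) ∣ s t.1 - s t.2.1 + 2 * s t.2.2 - x).card := by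
      rw [Nat.card_eq_fintype_card, Fintype.card_subtype] at hA
      exact hA
    have h7 : (0 : ℤ) ≤ 2 * (m : ℤ) ^ 2 - 4 * m * (E + 2) := by
      have h8 : (2 * (E + 2) : ℤ) ≤ m := by
        rw [hm]
        push_cast
        have : (1 : ℤ) ≤ A := by exact_mod_cast hA1
        have hE0 : (0 : ℤ) ≤ E := Int.natCast_nonneg _
        nlinarith
      have h9 : (0 : ℤ) ≤ m := Int.natCast_nonneg _
      nlinarith
    exact mul_le_mul_of_nonneg_right (by exact_mod_cast h6) h7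
  have h10 : ((M * (3 * m ^ 2) : ℕ) : ℤ) < (A : ℤ) * (2 * (m : ℤ) ^ 2 - 4 * m * (E + 2)) := by
    push_cast
    have a1 : (3 * M + 1 : ℤ) ≤ 2 * A := by exact_mod_cast hAM
    have a2 : (m : ℤ) = 4 * A * (E + 2) + 1 := by rw [hm]; push_cast; ring
    have a3 : (0 : ℤ) < m := by
      have : 0 < m := by omega
      exact_mod_cast this
    -- m^2 (2A - 3M) ≥ m^2 > 4 A (E+2) m
    have a4 : (m : ℤ) ^ 2 * (3 * M + 1) ≤ (m : ℤ) ^ 2 * (2 * A) :=
      mul_le_mul_of_nonneg_left a1 (by positivity)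
    have a5 : (m : ℤ) * (4 * A * (E + 2)) < m * m := by
      apply mul_lt_mul_of_pos_left _ a3
      linarith
    nlinarith
  have h11 : ((∑ t : Fin m0 × Fin m0 × Fin m0, Nat.card {z : Fin (2 * m) × Fin (2 * m) × Fin (2 * m) //
        (s t.1 - s t.2.1 + 1 * s t.2.2) + (N : ℤ) *
          (((z.1 : ℕ) : ℤ) - ((z.2.1 : ℕ) : ℤ) + 1 * ((z.2.2 : ℕ) : ℤ)) = k} : ℕ) : ℤ)
      ≤ ((M * (3 * m ^ 2) : ℕ) : ℤ) := by exact_mod_cast h1
  have h12 := lt_of_le_of_lt h11 (lt_of_lt_of_le h10 h4)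
  rw [← Nat.cast_sum] at h12
  exact Nat.cast_lt.1 h12

end Pool.Agent.X153.LO
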